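import Pool.Agent.H583_V.V7
import Pool.Agent.H583_U.U7

/-!
MP_c69980_ag, Q1: the five conditions for the quasi-projective varieties with rational functions which
take certain values with high multiplicities.

`PseudoKobayashi` (`Pool/Agent/H583_K/Defs.lean`): the variety is pseudo-Kobayashi hyperbolic: there is
a proper closed subset such that the Kobayashi pseudodistance (the infimum of the lengths of the
chains of holomorphic discs, `Chain`) of two different points which are not both in this subset is
positive. `FinitePointed` (`Pool/Agent/H583_V/Defs.lean`): the condition (3), for all affine varieties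
`Y`, given by their coordinate rings; this gives the condition for all varieties, since a morphism is
determined by its restriction to an affine neighbourhood of the point. `y` is the generic point, in
homogeneous coordinates, of a projective variety with function field `L` (`coords ℂ y = ⊤`: the ratios
generate `L`), `D` a set of forms, and `U` the complement of the closed set `D = 0` in this variety.
`Family` (`Pool/Agent/H583_GQ/Defs.lean`): `x i`, `i < N`, are rational functions on `U` which define
a generically finite rational map to `(ℙ¹)ᴺ`, such that the vectors of the multiplicities of the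
values `a i j` of the functions `x i` at the points of curves in `U`, with images not in a proper
closed subset of `U`, are in the set `T`. `Fibres`: the closed set `D = 0` is the union of the fibres
of the `x i` over the `a i j`, `j ∈ O i`. `Good`: the numerical condition for `T`. `PseudoBrody`,
`LogGT`, `BoundedEach`: the conditions (2), (4), (5).
-/

set_option autoImplicit false

namespace Pool.Agent.Results.MP_c69980_ag.MultiplicityKobayashi

open Pool.Agent.H583_GQ Pool.Agent.H583_K Pool.Agent.H583_V Pool.Agent.W602.GT

/-- Let `U`, the complement of `D = 0` in the projective variety with the generic point `y`, have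
rational functions `x i` as in `Family`, where the `a i j` are different for different `j`.

(1) If the multiplicities satisfy `Good`, then `U` satisfies the conditions (1), (2), (5) of the
problem, the condition (3) if the closed set `D = 0` is a union of fibres `x i = a i j` (for example
empty), and the condition (4) if its dimension is positive.

(2) They satisfy `Good` if `p i ≥ 3` for all `i` and all nonzero vectors of multiplicities have a
sum larger than `∑ p i / (p i - 2)`. -/
theorem result (M : ℕ) (L : Type) [Field L] [Algebra ℂ L] (y : Fin (M + 1) → L) (hy : y ≠ 0)
    (hgen : coords ℂ y = ⊤) (D : Set (MvPolynomial (Fin (M + 1)) ℂ)) (hD : ¬ In D y)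
    (N : ℕ) (p : Fin N → ℕ) (a : ∀ i, Fin (p i) → ℂ) (ha : ∀ i, Function.Injective (a i))
    (x : Fin N → L) (T : Set (∀ i, Fin (p i) → ℕ)) (hF : Family a y D x T) :
    (Pool.Agent.H583_GQ.Good p T → PseudoKobayashi y D ∧ PseudoBrody y D ∧ BoundedEach y D ∧
      (∀ O : ∀ i, Set (Fin (p i)), Fibres a y D x O → FinitePointed y D) ∧
      ∀ d : ℕ, 1 ≤ d → Algebra.trdeg ℂ L = d → LogGT y D d) ∧
    ((∀ i, 3 ≤ p i) → (∀ k ∈ T, k ≠ 0 →
      ∑ i, (p i : ℝ) / ((p i : ℝ) - 2) < ((∑ i, ∑ j, k i j : ℕ) : ℝ)) →
      Pool.Agent.H583_GQ.Good p T) := by
  refine ⟨fun hT => ?_, Pool.Agent.H583_U.good_of_sum⟩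
  have h1 := kobayashiG ha hF hy hgen hT
  have h2 := Pool.Agent.H583_U.good_strongly ha hF hy hgen hT
  exact ⟨h1, brody_of_kobayashi h1, (linBounded ha hF hy hgen hT).bounded.each,
    fun O hO => finitePointed ha hF hy hgen hO hT, fun d hd htr => h2.self hy hgen hD hd htr⟩

end Pool.Agent.Results.MP_c69980_ag.MultiplicityKobayashi
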