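import Pool.Agent.H583_V.V7

/-!
MP_c69980_ag, Q1: the equivalence of the five conditions for the complements of fibres in the abelian
covers of products of projective lines.

`PseudoKobayashi` (`Pool/Agent/H583_K/Defs.lean`): the variety is pseudo-Kobayashi hyperbolic: there is
a proper closed subset such that the Kobayashi pseudodistance (the infimum of the lengths of the
chains of holomorphic discs, `Chain`) of two different points which are not both in this subset is
positive. `FinitePointed` (`Pool/Agent/H583_V/Defs.lean`): the condition (3), for all affine varieties
`Y`, given by their coordinate rings; this gives the condition for all varieties, since a morphism is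
determined by its restriction to an affine neighbourhood of the point. `Branch`
(`Pool/Agent/H583_GP/Defs.lean`): the branch data of an abelian cover of `(ℙ¹)ᴺ` with the equations
`w l ^ m l = ∏ (x i - a i j) ^ e l i j`; `Branch.Cover`: `L` is the function field of a component of
the cover; `Branch.Adm`: the possible vectors of multiplicities `k i j` of the values `a i j` of the
functions `x i` at a point of a curve in the cover. `AdmO` (`H583_GQ/Defs.lean`): those with
`k i j = 0` for `j ∈ O i`. `Wide`: the numerical condition for a set of vectors of multiplicities. `y`
is the generic point of a projective model of `L`, in homogeneous coordinates (`coords ℂ y = ⊤`: their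
ratios generate `L`). `In`: a point lies in the closed set `D = 0`, where `D` is a set of forms.
`Fibres`: the closed set `D = 0` is the union of the fibres of the `x i` over the `a i j`, `j ∈ O i`.
`PseudoBrody`, `LogGT`, `BoundedEach` (`H583_GQ/Defs.lean`, `Unb.lean`): the conditions (2), (4), (5)
for the complement of `D = 0` in the projective model.
-/

set_option autoImplicit false

namespace Pool.Agent.Results.MP_c69980_ag.ProductLineKobayashi

open Pool.Agent.H583_GP (Branch)
open Pool.Agent.H583_GQ Pool.Agent.H583_K Pool.Agent.H583_V Pool.Agent.W602.GT

/-- Let `L` be the function field of a component of the abelian cover of `(ℙ¹)ᴺ`, `N ≥ 1`, with the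
branch data `B`, and let `O i` be a set of the branch points on the `i`-th line. There are projective
models in which the union of the fibres over the points of the `O i` is a closed set `D = 0`. For all
such models the following are equivalent for the complement `U` of `D = 0`, if the multiplicities
satisfy `Wide`, for instance if all total multiplicities are larger than
`∑ p i / max 1 (p i - 2)`: (1) `U` is pseudo-Kobayashi hyperbolic; (2) the entire curves in `U` lie in
a proper closed subset; (3) there are only finitely many morphisms from each variety `Y` to `U` which
map a given point of `Y` to a given point of `U` not in a proper closed subset; (4) `U` is of log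
general type; (5) the degrees of the morphisms from each fixed curve to `U`, with images not in a
proper closed subset, are bounded; (6) there are at least three branch points on each of the lines. -/
theorem result (N r : ℕ) (hN : 1 ≤ N) (B : Branch N r) (O : ∀ i, Set (Fin (B.p i)))
    (L : Type) [Field L] [Algebra ℂ L] (x : Fin N → L) (w : Fin r → L) (hC : B.Cover x w) :
    (∃ (M : ℕ) (y : Fin (M + 1) → L) (D : Set (MvPolynomial (Fin (M + 1)) ℂ)),
      y ≠ 0 ∧ coords ℂ y = ⊤ ∧ ¬ In D y ∧ Fibres B.a y D x O) ∧
    ((Wide B.p (AdmO B O) ∨ ∀ k ∈ AdmO B O, k ≠ 0 →
        ∑ i, (B.p i : ℝ) / max 1 ((B.p i : ℝ) - 2) < ((∑ i, ∑ j, k i j : ℕ) : ℝ)) →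
      ∀ (M : ℕ) (y : Fin (M + 1) → L) (D : Set (MvPolynomial (Fin (M + 1)) ℂ)),
        y ≠ 0 → coords ℂ y = ⊤ → Fibres B.a y D x O →
        [PseudoKobayashi y D, PseudoBrody y D, FinitePointed y D, LogGT y D N, BoundedEach y D,
          ∀ i, 3 ≤ B.p i].TFAE) := by
  refine ⟨cover_model hC O, fun hW M y D hy hgen hD => ?_⟩
  exact covers_five hC hN hy hgen hD (hW.elim id fun h => (wideStrong_of_sum h).wide)

end Pool.Agent.Results.MP_c69980_ag.ProductLineKobayashi
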